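import Mathlib

set_option autoImplicit false

namespace Pool.Agent.Results.MP_1de1cd_co.CompleteMultipartite

open Finset

/-! ### A small closed neighbourhood -/

theorem arith (N k a j : ℤ) (hj : 0 ≤ j) (hja : j + 1 ≤ a) (hak : 2 * a ≤ k)
    (hN : 2 * N ≤ k * (k - a + 2)) (hN0 : 0 < N) :
    k * (N - j * (k - j + 1)) < (k - 2 * j + 1) * (N - j) := by
  rcases hj.eq_or_lt with rfl | hj0
  · nlinarith
  · obtain ⟨s, rfl⟩ : ∃ s, a = j + 1 + s := ⟨a - j - 1, by ring⟩
    obtain ⟨t, rfl⟩ : ∃ t, k = 2 * (j + 1 + s) + t := ⟨k - 2 * (j + 1 + s), by ring⟩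
    have hs : 0 ≤ s := by linarith
    have ht : 0 ≤ t := by linarith
    have h1 : (2 * j - 1) * (2 * N) ≤
        (2 * j - 1) * ((2 * (j + 1 + s) + t) * (2 * (j + 1 + s) + t - (j + 1 + s) + 2)) :=
      mul_le_mul_of_nonneg_left hN (by linarith)
    have h2 : 0 ≤ j * s := by positivity
    have h3 : 0 ≤ j * t := by positivity
    have h4 : 0 ≤ s * t := by positivity
    have h5 : 0 ≤ j * s * t := by positivity
    have h6 : 0 ≤ j * j * s := by positivity
    have h7 : 0 ≤ j * s * s := by positivity
    nlinarith [h1, h2, h3, h4, h5, h6, h7, sq_nonneg s, sq_nonneg t, sq_nonneg j]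

section cover

variable {n : ℕ} (H : SimpleGraph (Fin n)) [DecidableRel H.Adj]

/-- The vertices of `V` outside `A` without a neighbour in `A`. -/
def U (V A : Finset (Fin n)) : Finset (Fin n) :=
  V.filter (fun v => v ∉ A ∧ ∀ x ∈ A, ¬ H.Adj x v)

theorem cover (V : Finset (Fin n)) (k a : ℕ) (hdeg : ∀ v ∈ V, (V.filter (H.Adj v)).card + 1 ≤ k)
    (hak : 2 * a ≤ k) (hN : 2 * (V.card : ℤ) ≤ k * (k - a + 2)) (hN2 : k + a ≤ V.card)
    (hk : 0 < k) :
    ∀ j : ℕ, j ≤ a → ∃ A : Finset (Fin n), A ⊆ V ∧ A.card = j ∧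
      (V.card : ℤ) - j * (k - j + 1) ≤ (U H V A).card := by
  intro j
  induction j with
  | zero =>
    intro _
    refine ⟨∅, by simp, by simp, ?_⟩
    have : U H V ∅ = V := by
      unfold U
      simp
    rw [this]
    simp
  | succ j ih =>
    intro hja
    obtain ⟨A, hAV, hAc, hAU⟩ := ih (by omega)
    set W := U H V A with hW
    have hBc : (V \ A).card = V.card - j := by
      rw [card_sdiff_of_subset hAV, hAc]
    have hBne : (V \ A).Nonempty := by
      rw [← card_pos, hBc]
      omega
    let r : Fin n → Fin n → Prop := fun u v => v = u ∨ H.Adj u v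
    have hsum : ∑ u ∈ V \ A, (W.filter (r u)).card ≤ k * W.card := by
      have h1 : ∑ u ∈ V \ A, (W.filter (r u)).card =
          ∑ v ∈ W, ((V \ A).filter (fun u => r u v)).card :=
        sum_card_bipartiteAbove_eq_sum_card_bipartiteBelow r
      rw [h1]
      have h2 : ∀ v ∈ W, ((V \ A).filter (fun u => r u v)).card ≤ k := by
        intro v hv
        have hvV : v ∈ V := (mem_filter.1 hv).1
        refine le_trans (card_le_card (t := insert v (V.filter (H.Adj v))) ?_) ?_
        · intro u hu
          rw [mem_filter, mem_sdiff] at hu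
          rw [mem_insert, mem_filter]
          rcases hu.2 with h | h
          · exact Or.inl h.symm
          · exact Or.inr ⟨hu.1.1, h.symm⟩
        · exact (card_insert_le _ _).trans (hdeg v hvV)
      calc ∑ v ∈ W, ((V \ A).filter (fun u => r u v)).card ≤ ∑ v ∈ W, k := sum_le_sum h2
        _ = k * W.card := by rw [sum_const, smul_eq_mul, mul_comm]
    obtain ⟨u, hu, hut⟩ : ∃ u ∈ V \ A, (V \ A).card * (W.filter (r u)).card ≤ k * W.card := by
      refine exists_le_of_sum_le hBne ?_
      rw [← mul_sum, sum_const, smul_eq_mul]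
      exact Nat.mul_le_mul_left _ hsum
    rw [mem_sdiff] at hu
    refine ⟨insert u A, ?_, ?_, ?_⟩
    · exact insert_subset hu.1 hAV
    · rw [card_insert_of_notMem hu.2, hAc]
    · have hU : U H V (insert u A) = W.filter (fun v => ¬ r u v) := by
        ext v
        simp only [U, hW, mem_filter, mem_insert, r]
        constructor
        · rintro ⟨h1, h2, h3⟩
          push Not at h2
          refine ⟨⟨h1, h2.2, fun x hx => h3 x (Or.inr hx)⟩, ?_⟩
          rintro (h4 | h4)
          · exact h2.1 h4
          · exact h3 u (Or.inl rfl) h4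
        · rintro ⟨⟨h1, h2, h3⟩, h4⟩
          push Not at h4
          refine ⟨h1, ?_, ?_⟩
          · rintro (h5 | h5)
            · exact h4.1 h5
            · exact h2 h5
          · rintro x (rfl | hx)
            · exact h4.2
            · exact h3 x hx
      have hcard : (W.filter (r u)).card + (W.filter (fun v => ¬ r u v)).card = W.card :=
        card_filter_add_card_filter_not _
      rw [hU]
      by_contra hcon
      push Not at hcon
      have e1 : ((V \ A).card : ℤ) = (V.card : ℤ) - j := by
        rw [hBc, Nat.cast_sub (by omega)]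
      have e2 : ((V.card : ℤ) - j) * ((W.filter (r u)).card : ℤ) ≤ k * (W.card : ℤ) := by
        rw [← e1]
        exact_mod_cast hut
      have e3 : ((W.filter (r u)).card : ℤ) + ((W.filter (fun v => ¬ r u v)).card : ℤ) =
          (W.card : ℤ) := by exact_mod_cast hcard
      have har := arith (V.card : ℤ) k a j (by positivity) (by exact_mod_cast hja)
        (by exact_mod_cast hak) hN (by
          have : 0 < V.card := by omega
          exact_mod_cast this)
      set t : ℤ := ((W.filter (r u)).card : ℤ) with ht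
      set w' : ℤ := ((W.filter (fun v => ¬ r u v)).card : ℤ) with hw'
      set M : ℤ := (W.card : ℤ) with hM
      set N : ℤ := (V.card : ℤ) with hNN
      push_cast at hcon
      -- `M - t = w' ≤ N - (j+1)(k-j) - 1`
      have e4 : t ≥ M - (N - (j + 1) * (k - (j + 1) + 1)) + 1 := by linarith
      have e5 : (0 : ℤ) ≤ N - j := by
        rw [hNN]
        have : j ≤ V.card := by omega
        have : (j : ℤ) ≤ V.card := by exact_mod_cast this
        linarith
      have e6 : (N - j) * (M - (N - (j + 1) * (k - (j + 1) + 1)) + 1) ≤ (N - j) * t :=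
        mul_le_mul_of_nonneg_left e4 e5
      have e7 : (0 : ℤ) ≤ N - j - k := by
        rw [hNN]
        have : j + k ≤ V.card := by omega
        have : (j : ℤ) + k ≤ V.card := by exact_mod_cast this
        linarith
      have e8 : (N - j - k) * (N - j * (k - j + 1)) ≤ (N - j - k) * M :=
        mul_le_mul_of_nonneg_left hAU e7
      nlinarith [e2, e6, e8, har]

end cover

/-! ### Complete multipartite graphs -/

/-- The number of ordered pairs in different parts. -/
def E {k : ℕ} (c : Fin k → ℕ) (S : Finset (Fin k)) : ℕ :=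
  ∑ u ∈ S, (S.filter (fun v => c u ≠ c v)).card

/-- The number of pairs in different parts. -/
def M {k : ℕ} (c : Fin k → ℕ) (S : Finset (Fin k)) : ℕ :=
  ∑ u ∈ S, (S.filter (fun v => c u < c v)).card

theorem E_eq {k : ℕ} (c : Fin k → ℕ) (S : Finset (Fin k)) : E c S = 2 * M c S := by
  have h1 : ∑ u ∈ S, (S.filter (fun v => c u < c v)).card =
      ∑ v ∈ S, (S.filter (fun u => c u < c v)).card :=
    sum_card_bipartiteAbove_eq_sum_card_bipartiteBelow (fun u v => c u < c v)
  have h2 : E c S = M c S + ∑ v ∈ S, (S.filter (fun u => c u < c v)).card := by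
    unfold E M
    rw [← sum_add_distrib]
    refine sum_congr rfl ?_
    intro u _
    rw [← card_union_of_disjoint]
    · congr 1
      ext v
      simp only [mem_filter, mem_union]
      constructor
      · rintro ⟨h, h'⟩
        rcases lt_or_gt_of_ne h' with h3 | h3
        · exact Or.inl ⟨h, h3⟩
        · exact Or.inr ⟨h, h3⟩
      · rintro (⟨h, h'⟩ | ⟨h, h'⟩)
        · exact ⟨h, h'.ne⟩
        · exact ⟨h, h'.ne'⟩
    · rw [disjoint_left]
      intro v hv hv'
      rw [mem_filter] at hv hv'
      omega
  rw [h2, ← h1]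
  unfold M
  ring

theorem E_split {k : ℕ} (c : Fin k → ℕ) (S : Finset (Fin k)) (p : ℕ) :
    E c S = E c (S.filter (fun v => c v ≠ p)) +
      2 * ((S.filter (fun v => c v = p)).card * (S.filter (fun v => c v ≠ p)).card) := by
  set P := S.filter (fun v => c v = p) with hP
  set S' := S.filter (fun v => c v ≠ p) with hS'
  have h0 : E c S = ∑ u ∈ P, (S.filter (fun v => c u ≠ c v)).card +
      ∑ u ∈ S', (S.filter (fun v => c u ≠ c v)).card := by
    unfold E
    rw [hP, hS', sum_filter_add_sum_filter_not]
  have h1 : ∑ u ∈ P, (S.filter (fun v => c u ≠ c v)).card = P.card * S'.card := by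
    rw [← smul_eq_mul, ← sum_const]
    refine sum_congr rfl ?_
    intro u hu
    have hcu : c u = p := (mem_filter.1 hu).2
    rw [hS', hcu]
    congr 1
    refine filter_congr ?_
    intro v _
    exact ne_comm
  have h2 : ∑ u ∈ S', (S.filter (fun v => c u ≠ c v)).card =
      E c S' + P.card * S'.card := by
    have h3 : ∀ u ∈ S', (S.filter (fun v => c u ≠ c v)).card =
        (S'.filter (fun v => c u ≠ c v)).card + P.card := by
      intro u hu
      have hcu : c u ≠ p := (mem_filter.1 hu).2
      rw [← card_union_of_disjoint]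
      · congr 1
        ext v
        simp only [mem_filter, mem_union, hS', hP]
        constructor
        · rintro ⟨h, h'⟩
          by_cases h3 : c v = p
          · exact Or.inr ⟨h, h3⟩
          · exact Or.inl ⟨⟨h, h3⟩, h'⟩
        · rintro (⟨⟨h, h'⟩, h4⟩ | ⟨h, h'⟩)
          · exact ⟨h, h4⟩
          · exact ⟨h, by rw [h']; exact hcu⟩
      · rw [disjoint_left]
        intro v hv hv'
        simp only [mem_filter, hS', hP] at hv hv'
        exact hv.1.2 hv'.2
    rw [sum_congr rfl h3, sum_add_distrib, sum_const, smul_eq_mul, mul_comm S'.card]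
    rfl
  rw [h0, h1, h2]
  ring

theorem exists_inj {α β : Type} (S : Finset α) (V : Finset β) (hS : S.Nonempty)
    (h : S.card ≤ V.card) : ∃ f : α → β, Set.InjOn f S ∧ ∀ u ∈ S, f u ∈ V := by
  classical
  obtain ⟨e⟩ : Nonempty (S ↪ V) := by
    apply Function.Embedding.nonempty_of_card_le
    simpa using h
  obtain ⟨s, hs⟩ := hS
  refine ⟨fun u => if hu : u ∈ S then (e ⟨u, hu⟩ : β) else (e ⟨s, hs⟩ : β), ?_, ?_⟩
  · intro u hu v hv huv
    simp only [mem_coe] at hu hv
    simp only [hu, hv, dif_pos] at huv
    have := e.injective (Subtype.ext huv)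
    exact congrArg Subtype.val this
  · intro u hu
    simp only [hu, dif_pos]
    exact (e ⟨u, hu⟩).2

theorem embed {n k : ℕ} (H : SimpleGraph (Fin n)) (hH : H.CliqueFree 3) (c : Fin k → ℕ) :
    ∀ (s : ℕ) (S : Finset (Fin k)) (V : Finset (Fin n)), S.card = s → S.Nonempty →
      S.card + M c S ≤ V.card →
      ∃ f : Fin k → Fin n, Set.InjOn f S ∧ (∀ u ∈ S, f u ∈ V) ∧
        ∀ u ∈ S, ∀ v ∈ S, c u ≠ c v → ¬ H.Adj (f u) (f v) := by
  classical
  intro s
  induction s using Nat.strong_induction_on with
  | _ s ih =>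
  intro S V hs hS hV
  by_cases hone : ∀ u ∈ S, ∀ v ∈ S, c u = c v
  · obtain ⟨f, hf1, hf2⟩ := exists_inj S V hS (by omega)
    exact ⟨f, hf1, hf2, fun u hu v hv huv => absurd (hone u hu v hv) huv⟩
  obtain ⟨V0, hV0, hV0c⟩ := exists_subset_card_eq hV
  by_cases hbig : ∃ v ∈ V0, S.card ≤ (V0.filter (H.Adj v)).card
  · obtain ⟨v, hv, hvc⟩ := hbig
    obtain ⟨f, hf1, hf2⟩ := exists_inj S _ hS hvc
    refine ⟨f, hf1, fun u hu => hV0 (mem_filter.1 (hf2 u hu)).1, ?_⟩
    intro x hx y hy _ hadj
    have h1 := (mem_filter.1 (hf2 x hx)).2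
    have h2 := (mem_filter.1 (hf2 y hy)).2
    exact hH _ (SimpleGraph.is3Clique_triple_iff.2 ⟨h1, h2, hadj⟩)
  push Not at hbig
  -- the smallest part
  obtain ⟨x0, hx0, hmin⟩ := exists_min_image S (fun x => (S.filter (fun v => c v = c x)).card) hS
  set p := c x0 with hp
  set P := S.filter (fun v => c v = p) with hP
  set S' := S.filter (fun v => c v ≠ p) with hS'
  have hPS : P.card + S'.card = S.card := card_filter_add_card_filter_not _
  have hPpos : 0 < P.card := card_pos.2 ⟨x0, mem_filter.2 ⟨hx0, rfl⟩⟩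
  have hS'ne : S'.Nonempty := by
    by_contra hcon
    rw [not_nonempty_iff_eq_empty, hS', filter_eq_empty_iff] at hcon
    apply hone
    intro u hu v hv
    have h1 := hcon hu
    have h2 := hcon hv
    push Not at h1 h2
    rw [h1, h2]
  have h2a : P.card ≤ S'.card := by
    obtain ⟨y, hy⟩ := hS'ne
    have hyS := (mem_filter.1 hy).1
    have hyp := (mem_filter.1 hy).2
    refine (hmin y hyS).trans (card_le_card ?_)
    intro v hv
    rw [mem_filter] at hv
    rw [hS', mem_filter]
    exact ⟨hv.1, by rw [hv.2]; exact hyp⟩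
  have hsplit : M c S = M c S' + P.card * S'.card := by
    have h1 := E_split c S p
    rw [E_eq, E_eq] at h1
    rw [← hP, ← hS'] at h1
    omega
  have hEle : 2 * M c S + S.card * P.card ≤ S.card * S.card := by
    rw [← E_eq]
    have h1 : S.card * P.card ≤ ∑ u ∈ S, (S.filter (fun v => ¬ (c u ≠ c v))).card := by
      rw [← smul_eq_mul, ← sum_const]
      refine sum_le_sum ?_
      intro u hu
      refine (hmin u hu).trans (card_le_card ?_)
      intro v hv
      rw [mem_filter] at hv ⊢
      exact ⟨hv.1, by rw [hv.2]; simp⟩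
    calc E c S + S.card * P.card ≤ ∑ u ∈ S, (S.filter (fun v => c u ≠ c v)).card +
          ∑ u ∈ S, (S.filter (fun v => ¬ (c u ≠ c v))).card := by
          unfold E
          omega
      _ = ∑ u ∈ S, S.card := by
        rw [← sum_add_distrib]
        exact sum_congr rfl (fun u _ => card_filter_add_card_filter_not _)
      _ = S.card * S.card := by rw [sum_const, smul_eq_mul]
  obtain ⟨A, hAV, hAc, hAU⟩ := cover H V0 S.card P.card
    (fun v hv => by have := hbig v hv; omega) (by omega)
    (by
      rw [hV0c]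
      have h1 : (2 * (M c S : ℤ)) + S.card * P.card ≤ S.card * S.card := by exact_mod_cast hEle
      push_cast
      nlinarith)
    (by
      rw [hV0c, hsplit]
      have : P.card ≤ P.card * S'.card := Nat.le_mul_of_pos_right _ hS'ne.card_pos
      omega)
    (by omega) P.card le_rfl
  have hU : S'.card + M c S' ≤ (U H V0 A).card := by
    have h1 : ((S'.card + M c S' : ℕ) : ℤ) ≤ ((U H V0 A).card : ℤ) := by
      refine le_trans (le_of_eq ?_) hAU
      rw [hV0c, hsplit, ← hPS]
      push_cast
      ring
    exact_mod_cast h1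
  obtain ⟨f1, hf1, hf1V, hf1adj⟩ := ih S'.card (by omega) S' (U H V0 A) rfl hS'ne hU
  obtain ⟨f2, hf2, hf2A⟩ := exists_inj P A (card_pos.1 hPpos) hAc.ge
  have hUmem : ∀ u ∈ S', f1 u ∈ V0 ∧ f1 u ∉ A ∧ ∀ x ∈ A, ¬ H.Adj x (f1 u) := by
    intro u hu
    have h1 := hf1V u hu
    unfold U at h1
    rw [mem_filter] at h1
    exact h1
  refine ⟨fun u => if c u = p then f2 u else f1 u, ?_, ?_, ?_⟩
  · intro u hu v hv huv
    rw [mem_coe] at hu hv
    simp only at huv
    by_cases h1 : c u = p
    · have huP : u ∈ P := mem_filter.2 ⟨hu, h1⟩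
      by_cases h2 : c v = p
      · have hvP : v ∈ P := mem_filter.2 ⟨hv, h2⟩
        rw [if_pos h1, if_pos h2] at huv
        exact hf2 (mem_coe.2 huP) (mem_coe.2 hvP) huv
      · have hvS : v ∈ S' := mem_filter.2 ⟨hv, h2⟩
        rw [if_pos h1, if_neg h2] at huv
        exact absurd (huv ▸ hf2A u huP) (hUmem v hvS).2.1
    · have huS : u ∈ S' := mem_filter.2 ⟨hu, h1⟩
      by_cases h2 : c v = p
      · have hvP : v ∈ P := mem_filter.2 ⟨hv, h2⟩
        rw [if_neg h1, if_pos h2] at huv
        exact absurd (huv ▸ hf2A v hvP) (hUmem u huS).2.1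
      · have hvS : v ∈ S' := mem_filter.2 ⟨hv, h2⟩
        rw [if_neg h1, if_neg h2] at huv
        exact hf1 (mem_coe.2 huS) (mem_coe.2 hvS) huv
  · intro u hu
    by_cases h1 : c u = p
    · have huP : u ∈ P := mem_filter.2 ⟨hu, h1⟩
      simp only [h1, if_pos]
      exact hV0 (hAV (hf2A u huP))
    · have huS : u ∈ S' := mem_filter.2 ⟨hu, h1⟩
      simp only [h1, if_false]
      exact hV0 (hUmem u huS).1
  · intro u hu v hv huv
    by_cases h1 : c u = p
    · have huP : u ∈ P := mem_filter.2 ⟨hu, h1⟩
      have h2 : c v ≠ p := fun h => huv (h1.trans h.symm)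
      have hvS : v ∈ S' := mem_filter.2 ⟨hv, h2⟩
      simp only [h1, h2, if_pos, if_false]
      exact (hUmem v hvS).2.2 _ (hf2A u huP)
    · have huS : u ∈ S' := mem_filter.2 ⟨hu, h1⟩
      by_cases h2 : c v = p
      · have hvP : v ∈ P := mem_filter.2 ⟨hv, h2⟩
        simp only [h1, h2, if_pos, if_false]
        exact fun h => (hUmem u huS).2.2 _ (hf2A v hvP) h.symm
      · have hvS : v ∈ S' := mem_filter.2 ⟨hv, h2⟩
        simp only [h1, h2, if_false]
        exact hf1adj u huS v hvS huv

/-- `K` is complete multipartite: two vertices are adjacent exactly when they lie in different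
parts, `part v` being the index of the part of `v`. -/
def IsCompleteMultipartiteWith {k : ℕ} (K : SimpleGraph (Fin k)) (part : Fin k → ℕ) : Prop :=
  ∀ u v, K.Adj u v ↔ part u ≠ part v

/-- Every graph on `n` vertices contains a triangle, or its complement contains a copy of `K`. -/
def Forces {k : ℕ} (K : SimpleGraph (Fin k)) (n : ℕ) : Prop :=
  ∀ H : SimpleGraph (Fin n), H.CliqueFree 3 →
    ∃ f : Fin k ↪ Fin n, ∀ u v, K.Adj u v → Hᶜ.Adj (f u) (f v)

/-- Sidorenko's inequality `R(3,K) ≤ k + m` for every complete multipartite graph `K` with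
`k ≥ 1` vertices and `m` edges, with any number of parts of any sizes: for every `n ≥ k + m`, every
triangle-free graph on `n` vertices has a complement containing `K`. -/
theorem result (k : ℕ) (hk : 1 ≤ k) (K : SimpleGraph (Fin k)) (part : Fin k → ℕ)
    (hK : IsCompleteMultipartiteWith K part) (n : ℕ) (hn : k + K.edgeSet.ncard ≤ n) :
    Forces K n := by
  classical
  intro H hH
  have hedge : K.edgeSet.ncard = M part univ := by
    have h1 := K.sum_degrees_eq_twice_card_edges
    have h2 : ∀ v, K.degree v = (univ.filter (fun w => part v ≠ part w)).card := by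
      intro v
      rw [← SimpleGraph.card_neighborFinset_eq_degree]
      congr 1
      ext w
      rw [SimpleGraph.mem_neighborFinset, mem_filter]
      simp [hK v w]
    have h3 : ∑ v, K.degree v = E part univ := by
      unfold E
      exact sum_congr rfl (fun v _ => h2 v)
    rw [h3, E_eq] at h1
    have h4 : K.edgeSet.ncard = K.edgeFinset.card := by
      rw [← SimpleGraph.coe_edgeFinset, Set.ncard_coe_finset]
    omega
  have huniv : (univ : Finset (Fin k)).Nonempty := ⟨⟨0, hk⟩, mem_univ _⟩
  obtain ⟨f, hf1, -, hf3⟩ := embed H hH part k univ univ (by simp) huniv (by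
    rw [card_univ, card_univ, Fintype.card_fin, Fintype.card_fin, ← hedge]
    exact hn)
  have hinj : Function.Injective f := by
    intro u v huv
    exact hf1 (by simp) (by simp) huv
  refine ⟨⟨f, hinj⟩, fun u v huv => ?_⟩
  rw [SimpleGraph.compl_adj]
  exact ⟨fun h => huv.ne (hinj h), hf3 u (mem_univ _) v (mem_univ _) ((hK u v).1 huv)⟩

end Pool.Agent.Results.MP_1de1cd_co.CompleteMultipartite
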